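import Pool.Agent.Y64.RR.Stm

/-!
The Diophantine input (task DIO of the project RR).
-/

set_option autoImplicit false

namespace Pool.Agent.Y458.RR

open Finset Pool.Agent.Y64.RR

/-- `q ‖q t‖` -/
noncomputable def nu (t : ℝ) (q : ℕ) : ℝ := q * |q * t - round (q * t)|

theorem nu_le (t : ℝ) (q : ℕ) (a : ℤ) : nu t q ≤ q * |q * t - a| := by
  unfold nu
  exact mul_le_mul_of_nonneg_left (round_le ((q : ℝ) * t) a) (Nat.cast_nonneg q)

theorem nu_pos {t : ℝ} (ht : Irrational t) {q : ℕ} (hq : 1 ≤ q) : 0 < nu t q := by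
  unfold nu
  have h1 : Irrational ((q : ℝ) * t) := ht.natCast_mul (by omega)
  have h2 : (q : ℝ) * t - round ((q : ℝ) * t) ≠ 0 := sub_ne_zero.mpr (h1.ne_int _)
  have h3 : (0 : ℝ) < q := by exact_mod_cast hq
  positivity

theorem bad_of {t δ : ℝ} {m : ℕ} {c : ℤ} (hm : 1 ≤ m) (hcop : IsCoprime c (m : ℤ))
    (ht : m * t = c + δ) (hδ : m * |δ| ≤ 1 / 2) {ν : ℝ} (hν : 0 < ν)
    (hb : ∀ b : ℕ, 1 ≤ b → b < m → ∀ a : ℤ, ν ≤ b * |b * t - a|) :
    Bad (3 / (2 * ν)) m (c / m) := by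
  intro b hb1 hbm a
  have hm0 : (0 : ℝ) < m := by exact_mod_cast hm
  have hb0 : (0 : ℝ) < b := by exact_mod_cast hb1
  have hj0 : (b : ℤ) * c - a * m ≠ 0 := by
    intro h
    have h1 : (m : ℤ) ∣ b * c := ⟨a, by linarith⟩
    have h2 : (m : ℤ) ∣ b := hcop.symm.dvd_of_dvd_mul_right h1
    have h3 := Int.le_of_dvd (by exact_mod_cast hb1) h2
    omega
  have hj : (1 : ℝ) ≤ |(b : ℝ) * c - a * m| := by
    have := Int.one_le_abs hj0
    exact_mod_cast this
  have h1 : |(b : ℝ) * (c / m) - a| = |(b : ℝ) * c - a * m| / m := by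
    rw [← abs_of_pos hm0, ← abs_div]
    congr 1
    rw [abs_of_pos hm0]
    field_simp
  have h2 : (b : ℝ) * t - a = ((b : ℝ) * c - a * m) / m + b * δ / m := by
    have : t = (c + δ) / m := by
      rw [← ht]; field_simp
    rw [this]
    field_simp
    ring
  have h3 : |(b : ℝ) * t - a| ≤ 3 / 2 * (|(b : ℝ) * c - a * m| / m) := by
    rw [h2]
    refine (abs_add_le _ _).trans ?_
    rw [abs_div, abs_div, abs_of_pos hm0, abs_mul, abs_of_pos hb0]
    have h4 : (b : ℝ) * |δ| ≤ 1 / 2 := by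
      refine le_trans ?_ hδ
      have : (b : ℝ) ≤ m := by exact_mod_cast hbm.le
      gcongr
    have h5 : (b : ℝ) * |δ| / m ≤ 1 / 2 * (|(b : ℝ) * c - a * m| / m) := by
      rw [← mul_div_assoc]
      exact div_le_div_of_nonneg_right (by linarith) hm0.le
    linarith
  have h6 := hb b hb1 hbm a
  rw [h1]
  have h7 : ν ≤ b * (3 / 2 * (|(b : ℝ) * c - a * m| / m)) := h6.trans (by gcongr)
  rw [div_le_iff₀ (by positivity)]
  calc (1 : ℝ) = 3 / (2 * ν) * (2 / 3 * ν) := by field_simp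
    _ ≤ 3 / (2 * ν) * (2 / 3 * (b * (3 / 2 * (|(b : ℝ) * c - a * m| / m)))) := by gcongr
    _ = |(b : ℝ) * c - a * m| / m * (3 / (2 * ν) * b) := by ring

/-- the case of a number with arbitrarily good approximations -/
theorem case2 {t : ℝ} (ht : Irrational t) (h : ∀ ε : ℝ, 0 < ε → ∃ q : ℕ, 1 ≤ q ∧ nu t q < ε)
    (M : ℕ) : ∃ (m : ℕ) (c : ℤ) (δ E : ℝ), M ≤ m ∧ Par E (3 / 2) m c δ t := by
  obtain ⟨l₀, hl₀, hmin⟩ := Finset.exists_min_image (Finset.Icc 1 (M + 1)) (nu t)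
    ⟨1, Finset.mem_Icc.mpr ⟨le_rfl, by omega⟩⟩
  have hl₀' := (Finset.mem_Icc.mp hl₀).1
  set ε := min (1 / 2) (nu t l₀) with hε
  have hε0 : 0 < ε := lt_min (by norm_num) (nu_pos ht hl₀')
  have hex := h ε hε0
  classical
  obtain ⟨m, hm1, hmε, hmmin⟩ : ∃ m : ℕ, 1 ≤ m ∧ nu t m < ε ∧
      ∀ l : ℕ, l < m → ¬ (1 ≤ l ∧ nu t l < ε) :=
    ⟨Nat.find hex, (Nat.find_spec hex).1, (Nat.find_spec hex).2, fun l hl => Nat.find_min hex hl⟩
  have hlt : ∀ l : ℕ, 1 ≤ l → l < m → nu t m < nu t l := by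
    intro l hl hlm
    have := hmmin l hlm
    push Not at this
    exact hmε.trans_le (this hl)
  have hmM : M < m := by
    by_contra hcon
    have : nu t l₀ ≤ nu t m := hmin m (Finset.mem_Icc.mpr ⟨hm1, by omega⟩)
    exact absurd (hmε.trans_le (min_le_right _ _)) (not_lt.mpr this)
  have hν := nu_pos ht hm1
  have hm0 : (0 : ℝ) < m := by exact_mod_cast hm1
  set c : ℤ := round ((m : ℝ) * t) with hc
  set δ : ℝ := m * t - c with hδ
  have hnu : nu t m = m * |δ| := rfl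
  have hhalf : nu t m < 1 / 2 := hmε.trans_le (min_le_left _ _)
  have hcop : IsCoprime c (m : ℤ) := by
    rw [Int.isCoprime_iff_gcd_eq_one]
    by_contra hg
    set g := Int.gcd c m with hgdef
    have hg0 : g ≠ 0 := by
      intro h0
      have := (Int.gcd_eq_zero_iff.mp h0).2
      omega
    have hg2 : 2 ≤ g := by omega
    obtain ⟨c', hc'⟩ : (g : ℤ) ∣ c := Int.gcd_dvd_left c m
    obtain ⟨m', hm'⟩ : g ∣ m := by
      have : (g : ℤ) ∣ m := Int.gcd_dvd_right c m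
      exact_mod_cast this
    have hm'1 : 1 ≤ m' := by
      rcases Nat.eq_zero_or_pos m' with h0 | h0
      · rw [h0, mul_zero] at hm'
        omega
      · exact h0
    have hm'm : m' < m := by
      rw [hm']
      nlinarith
    have h1 := hlt m' hm'1 hm'm
    have h2 := nu_le t m' c'
    have hgr : (2 : ℝ) ≤ g := by exact_mod_cast hg2
    have hm'0 : (0 : ℝ) < m' := by exact_mod_cast hm'1
    have h3 : δ = g * (m' * t - c') := by
      rw [hδ, hc', hm']
      push_cast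
      ring
    have h4 : nu t m = (g * m') * (g * |m' * t - c'|) := by
      rw [hnu, h3, abs_mul, abs_of_pos (by linarith : (0 : ℝ) < g)]
      have : (m : ℝ) = g * m' := by exact_mod_cast hm'
      rw [this]
    have h5 : (m' : ℝ) * |m' * t - c'| ≤ nu t m := by
      rw [h4]
      have h6 : 0 ≤ (m' : ℝ) * |m' * t - c'| := by positivity
      have h7 : (g : ℝ) * m' * (g * |m' * t - c'|) = g ^ 2 * (m' * |m' * t - c'|) := by ring
      rw [h7]
      have h8 : (1 : ℝ) ≤ (g : ℝ) ^ 2 := by nlinarith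
      calc (m' : ℝ) * |m' * t - c'| = 1 * (m' * |m' * t - c'|) := (one_mul _).symm
        _ ≤ g ^ 2 * (m' * |m' * t - c'|) := mul_le_mul_of_nonneg_right h8 h6
    linarith
  refine ⟨m, c, δ, 3 / (2 * nu t m), hmM.le, hm1, hcop, by rw [hδ]; ring, ?_, ?_, ?_, ?_⟩
  · rw [← hnu]; exact hhalf.le
  · rw [le_div_iff₀ (by positivity)]
    linarith
  · rw [← hnu]
    have : 3 / (2 * nu t m) * nu t m = 3 / 2 := by field_simp
    rw [this]
  · have hmt : (m : ℝ) * t = c + δ := by rw [hδ]; ring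
    refine bad_of hm1 hcop hmt (by rw [← hnu]; exact hhalf.le) hν ?_
    intro b hb1 hbm a
    exact (hlt b hb1 hbm).le.trans (nu_le t b a)

/-- a good approximation, or its neighbour, is very good -/
theorem half {t μ : ℝ} (hμ : 0 < μ) (h : ∀ q : ℕ, 1 ≤ q → ∀ a : ℤ, μ ≤ q * |q * t - a|)
    (M b : ℕ) (a : ℤ) (hb : 1 ≤ b) (hcop : IsCoprime a (b : ℤ)) (hMb : M ≤ b) (hMμ : (M : ℝ) ≤ μ * b)
    (hpos : 0 < b * t - a) (hlt : b * (b * t - a) < 1) :
    ∃ (m : ℕ) (c : ℤ), M ≤ m ∧ 1 ≤ m ∧ IsCoprime c (m : ℤ) ∧ m * |m * t - c| ≤ 1 / 2 := by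
  have hb0 : (0 : ℝ) < b := by exact_mod_cast hb
  set ε : ℝ := b * t - a with hε
  by_cases hhalf : b * ε ≤ 1 / 2
  · exact ⟨b, a, hMb, hb, hcop, by rw [← hε, abs_of_pos hpos]; exact hhalf⟩
  · push Not at hhalf
    obtain ⟨u, v, huv⟩ := hcop
    -- `v * b - (-u) * a = 1`
    -- choose `k` with `b' = -u + k b` in `[1/ε - b, 1/ε)`
    obtain ⟨k, hk1, hk2⟩ : ∃ k : ℤ, 1 / ε - b ≤ -(u : ℝ) + k * b ∧ -(u : ℝ) + k * b < 1 / ε := by
      refine ⟨⌈(1 / ε - b + u) / b⌉, ?_, ?_⟩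
      · have := Int.le_ceil ((1 / ε - b + u) / (b : ℝ))
        rw [div_le_iff₀ hb0] at this
        linarith
      · have := Int.ceil_lt_add_one ((1 / ε - b + u) / (b : ℝ))
        have h2 : (⌈(1 / ε - b + u) / (b : ℝ)⌉ : ℝ) * b < (1 / ε - b + u) + b := by
          calc (⌈(1 / ε - b + u) / (b : ℝ)⌉ : ℝ) * b < ((1 / ε - b + u) / (b : ℝ) + 1) * b := by
                gcongr
            _ = (1 / ε - b + u) + b := by field_simp
        linarith
    have hεinv : (b : ℝ) < 1 / ε := by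
      rw [lt_div_iff₀ hpos]; exact hlt
    have hb'pos : (0 : ℝ) < -(u : ℝ) + k * b := by linarith
    have hb'posZ : 0 < -u + k * (b : ℤ) := by exact_mod_cast hb'pos
    obtain ⟨b', hb'⟩ := Int.eq_ofNat_of_zero_le hb'posZ.le
    have hb'R : -(u : ℝ) + k * b = b' := by exact_mod_cast hb'
    rw [hb'R] at hk1 hk2 hb'pos
    have hb'1 : 1 ≤ b' := by exact_mod_cast hb'pos
    set a' : ℤ := v + k * a with ha'
    have hdet : a' * b - b' * a = 1 := by
      rw [← hb', ha']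
      linear_combination huv
    have hdetR : (a' : ℝ) * b - b' * a = 1 := by exact_mod_cast hdet
    set η : ℝ := a' - b' * t with hη
    have hsum : ε * b' + η * b = 1 := by
      rw [hε, hη]
      linear_combination hdetR
    have hη0 : 0 < η := by
      rw [lt_div_iff₀ hpos] at hk2
      have : 0 < η * b := by linarith
      exact (mul_pos_iff_of_pos_right hb0).mp this
    have habs : |b' * t - a'| = η := by
      rw [abs_sub_comm, abs_of_pos hη0]
    refine ⟨b', a', ?_, hb'1, ⟨b, -a, by linear_combination hdet⟩, ?_⟩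
    · have h1 := h b' hb'1 a'
      rw [habs] at h1
      have h2 : η * b ≤ 1 := by
        have : 0 < ε * b' := by positivity
        linarith
      have h3 : μ * b ≤ b' := by
        calc μ * b ≤ (b' * η) * b := by gcongr
          _ = b' * (η * b) := by ring
          _ ≤ b' * 1 := by gcongr
          _ = b' := mul_one _
      exact_mod_cast hMμ.trans h3
    · rw [habs]
      by_contra hcon
      push Not at hcon
      -- both `b ε > 1/2` and `b' η > 1/2`
      have h1 : (b' : ℝ) * (1 / 2) < b' * (b * ε) := by gcongr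
      have h2 : (b : ℝ) * (1 / 2) < b * (b' * η) := by gcongr
      have h3 : (b : ℝ) * b' = (b * b') * (ε * b' + η * b) := by rw [hsum, mul_one]
      have h4 : (b' : ℝ) * (b' * (1 / 2)) < b' * (b' * (b * ε)) := by gcongr
      have h5 : (b : ℝ) * (b * (1 / 2)) < b * (b * (b' * η)) := by gcongr
      nlinarith [sq_nonneg ((b : ℝ) - b')]

/-- the case of badly approximable numbers -/
theorem case1 {t μ : ℝ} (ht : Irrational t) (hμ : 0 < μ)
    (h : ∀ q : ℕ, 1 ≤ q → ∀ a : ℤ, μ ≤ q * |q * t - a|) (M : ℕ) :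
    ∃ (m : ℕ) (c : ℤ), M ≤ m ∧ 1 ≤ m ∧ IsCoprime c (m : ℤ) ∧ m * |m * t - c| ≤ 1 / 2 := by
  have hinf := Real.infinite_rat_abs_sub_lt_one_div_den_sq_of_irrational ht
  obtain ⟨K, hK⟩ := exists_nat_ge ((M : ℝ) / μ)
  obtain ⟨q, hq, hqK⟩ : ∃ q : ℚ, |t - q| < 1 / (q.den : ℝ) ^ 2 ∧ M + K ≤ q.den := by
    by_contra hcon
    push Not at hcon
    apply hinf
    have hfin : Set.Finite {q : ℚ | |q| ≤ (⌈|t|⌉₊ + 1 : ℕ) ∧ q.den ≤ M + K} := by
      set B : ℕ := ⌈|t|⌉₊ + 1
      refine Set.Finite.subset (((Set.finite_Icc (-((B * (M + K) : ℕ) : ℤ)) ((B * (M + K) : ℕ) : ℤ)).prod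
        (Set.finite_Icc 0 (M + K))).image fun p : ℤ × ℕ => (p.1 : ℚ) / p.2) ?_
      rintro q ⟨hq1, hq2⟩
      refine ⟨(q.num, q.den), ⟨?_, ?_⟩, by simp [Rat.num_div_den]⟩
      · have h1 : |(q.num : ℚ)| ≤ (B * (M + K) : ℕ) := by
          have h2 : (q.num : ℚ) = q * q.den := (Rat.mul_den_eq_num q).symm
          rw [h2, abs_mul, Nat.abs_cast]
          push_cast
          have h3 : (q.den : ℚ) ≤ M + K := by exact_mod_cast hq2
          gcongr
        have h4 : |q.num| ≤ ((B * (M + K) : ℕ) : ℤ) := by exact_mod_cast h1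
        exact Set.mem_Icc.mpr (abs_le.mp h4)
      · exact Set.mem_Icc.mpr ⟨Nat.zero_le _, hq2⟩
    refine hfin.subset ?_
    intro q hq
    have hq' : |t - q| < 1 / (q.den : ℝ) ^ 2 := hq
    refine ⟨?_, (hcon q hq').le⟩
    have h1 : (1 : ℝ) / (q.den : ℝ) ^ 2 ≤ 1 := by
      rw [div_le_one (by have := q.den_pos; positivity)]
      have : (1 : ℝ) ≤ q.den := by exact_mod_cast q.den_pos
      nlinarith
    have h2 : |(q : ℝ)| ≤ |t| + 1 := by
      have h3 : |(q : ℝ)| ≤ |t - q| + |t| := by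
        have := abs_sub_abs_le_abs_sub (q : ℝ) t
        rw [abs_sub_comm] at this
        linarith
      linarith
    have h3 : |t| ≤ (⌈|t|⌉₊ : ℝ) := Nat.le_ceil _
    have h4 : |(q : ℝ)| ≤ ((⌈|t|⌉₊ + 1 : ℕ) : ℝ) := by
      push_cast
      linarith
    exact_mod_cast h4
  have hb : 1 ≤ q.den := q.den_pos
  have hb0 : (0 : ℝ) < q.den := by exact_mod_cast hb
  have hcop : IsCoprime q.num (q.den : ℤ) := by
    rw [Int.isCoprime_iff_gcd_eq_one]
    exact q.reduced
  have hMb : M ≤ q.den := by omega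
  have hMμ : (M : ℝ) ≤ μ * q.den := by
    have h1 : (K : ℝ) ≤ q.den := by exact_mod_cast (by omega : K ≤ q.den)
    have h2 : (M : ℝ) / μ ≤ q.den := hK.trans h1
    rw [div_le_iff₀ hμ] at h2
    linarith
  have hval : (q.den : ℝ) * t - q.num = q.den * (t - q) := by
    have : (q : ℝ) = q.num / q.den := Rat.cast_def q
    rw [this]
    field_simp
  have habs : q.den * |(q.den : ℝ) * t - q.num| < 1 := by
    rw [hval, abs_mul, abs_of_pos hb0]
    rw [lt_div_iff₀ (by positivity)] at hq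
    nlinarith
  have hne : (q.den : ℝ) * t - q.num ≠ 0 :=
    sub_ne_zero.mpr ((ht.natCast_mul (by omega : q.den ≠ 0)).ne_int _)
  rcases lt_or_gt_of_ne hne with hneg | hpos
  · have h' : ∀ p : ℕ, 1 ≤ p → ∀ a : ℤ, μ ≤ p * |p * (-t) - a| := by
      intro p hp a
      have := h p hp (-a)
      have h2 : |(p : ℝ) * (-t) - a| = |p * t - ((-a : ℤ) : ℝ)| := by
        rw [← abs_neg]
        congr 1
        push_cast
        ring
      rw [h2]
      exact this
    obtain ⟨m, c, h1, h2, h3, h4⟩ := half (t := -t) hμ h' M q.den (-q.num) hb hcop.neg_left hMb hMμ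
      (by push_cast; linarith) (by
        rw [abs_of_neg hneg] at habs
        push_cast
        linarith)
    refine ⟨m, -c, h1, h2, h3.neg_left, ?_⟩
    have h5 : |(m : ℝ) * t - ((-c : ℤ) : ℝ)| = |m * (-t) - c| := by
      rw [← abs_neg]
      congr 1
      push_cast
      ring
    rw [h5]
    exact h4
  · rw [abs_of_pos hpos] at habs
    exact half hμ h M q.den q.num hb hcop hMb hMμ hpos habs

theorem dio : StDIO := by
  intro t ht
  by_cases h : ∀ ε : ℝ, 0 < ε → ∃ q : ℕ, 1 ≤ q ∧ nu t q < ε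
  · exact ⟨3 / 2, fun M => case2 ht h M⟩
  · push Not at h
    obtain ⟨μ₀, hμ₀, h⟩ := h
    set μ := min μ₀ (1 / 2) with hμdef
    have hμ : 0 < μ := lt_min hμ₀ (by norm_num)
    have hμ2 : μ ≤ 1 / 2 := min_le_right _ _
    have h' : ∀ q : ℕ, 1 ≤ q → ∀ a : ℤ, μ ≤ q * |q * t - a| := fun q hq a =>
      (min_le_left _ _).trans ((h q hq).trans (nu_le t q a))
    refine ⟨3 / (2 * μ) * (1 / 2), fun M => ?_⟩
    obtain ⟨m, c, hM, hm, hcop, hδ⟩ := case1 ht hμ h' M
    refine ⟨m, c, m * t - c, 3 / (2 * μ), hM, hm, hcop, by ring, hδ, ?_, ?_, ?_⟩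
    · rw [le_div_iff₀ (by positivity)]
      linarith
    · gcongr
    · exact bad_of hm hcop (by ring) hδ hμ (fun b hb1 _ a => h' b hb1 a)

end Pool.Agent.Y458.RR
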